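import Pool.Agent.Run7.h670.MY.StmN

/-!
# Piece N_DIR of project MY (helper670), by helper216

A good direction in the plane. The lemmas on the rotation are by helper459.
-/

set_option autoImplicit false

open MeasureTheory Set
open scoped ENNReal RealInnerProductSpace

namespace Run7.h216.MY

open Pool.Agent.Run7.h670.MY

/-- the rotation of the plane -/
noncomputable def rot (θ : ℝ) : ℝ × ℝ →ₗ[ℝ] ℝ × ℝ :=
  Matrix.toLin (Module.Basis.finTwoProd ℝ) (Module.Basis.finTwoProd ℝ)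
    !![Real.cos θ, -Real.sin θ; Real.sin θ, Real.cos θ]

theorem rot_apply (θ : ℝ) (z : ℝ × ℝ) : rot θ z =
    (z.1 * Real.cos θ - z.2 * Real.sin θ, z.1 * Real.sin θ + z.2 * Real.cos θ) := by
  unfold rot
  rw [Matrix.toLin_finTwoProd_apply]
  ext <;> simp <;> ring

theorem rot_det (θ : ℝ) : LinearMap.det (rot θ) = 1 := by
  unfold rot
  rw [LinearMap.det_toLin, Matrix.det_fin_two_of]
  nlinarith [Real.sin_sq_add_cos_sq θ]

theorem rot_mp (θ : ℝ) : MeasurePreserving (rot θ) (volume : Measure (ℝ × ℝ)) volume := by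
  refine ⟨(LinearMap.continuous_of_finiteDimensional _).measurable, ?_⟩
  rw [Measure.map_linearMap_addHaar_eq_smul_addHaar _ (by rw [rot_det]; exact one_ne_zero),
    rot_det]
  simp

/-- of three points one has the largest value -/
theorem cube_le (g : ℝ → ℝ≥0∞) (hg : Measurable g) :
    (∫⁻ s, g s) ^ 3 ≤ 3 * ∫⁻ a, g a * (∫⁻ b, if g b ≤ g a then g b else 0) ^ 2 := by
  obtain ⟨h, hh⟩ : ∃ h : ℝ → ℝ → ℝ≥0∞, h = fun a b => if g b ≤ g a then g b else 0 := ⟨_, rfl⟩
  have hm : Measurable fun q : ℝ × ℝ => h q.1 q.2 := by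
    rw [hh]
    exact Measurable.ite (measurableSet_le (hg.comp measurable_snd) (hg.comp measurable_fst))
      (hg.comp measurable_snd) measurable_const
  have hmb : ∀ a, Measurable (h a) := fun a => hm.comp measurable_prodMk_left
  have hma : ∀ b, Measurable fun a => h a b := fun b => hm.comp measurable_prodMk_right
  obtain ⟨L, hLd⟩ : ∃ L : ℝ → ℝ≥0∞, L = fun a => ∫⁻ b, h a b := ⟨_, rfl⟩
  have hL : Measurable L := by
    rw [hLd]
    exact hm.lintegral_prod_right'
  have hLa : ∀ a, ∫⁻ b, h a b = L a := fun a => by rw [hLd]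
  have e0 : (∫⁻ s, g s) ^ 3 = ∫⁻ a, ∫⁻ b, ∫⁻ c, g a * g b * g c := by
    have h1 : ∀ a b, ∫⁻ c, g a * g b * g c = g a * g b * ∫⁻ c, g c :=
      fun a b => lintegral_const_mul _ hg
    simp only [h1]
    have h2 : ∀ a, ∫⁻ b, g a * g b * ∫⁻ c, g c = g a * ((∫⁻ c, g c) * ∫⁻ c, g c) := by
      intro a
      rw [lintegral_mul_const _ (hg.const_mul _), lintegral_const_mul _ hg]; ring
    simp only [h2]
    rw [lintegral_mul_const _ hg]; ring
  have key : ∀ a b c, g a * g b * g c ≤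
      g a * h a b * h a c + g b * h b a * h b c + g c * h c a * h c b := by
    intro a b c
    by_cases h1 : g b ≤ g a ∧ g c ≤ g a
    · have e : g a * h a b * h a c = g a * g b * g c := by
        simp only [hh]; rw [if_pos h1.1, if_pos h1.2]
      rw [e, add_assoc]; exact le_self_add
    by_cases h2 : g a ≤ g b ∧ g c ≤ g b
    · have e : g b * h b a * h b c = g a * g b * g c := by
        simp only [hh]; rw [if_pos h2.1, if_pos h2.2]; ring
      rw [e]
      exact le_add_self.trans le_self_add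
    · have h3 : g a ≤ g c ∧ g b ≤ g c := by
        rcases le_total (g a) (g b) with h | h
        · have h' : ¬ g c ≤ g b := fun h' => h2 ⟨h, h'⟩
          exact ⟨h.trans (not_le.1 h').le, (not_le.1 h').le⟩
        · have h' : ¬ g c ≤ g a := fun h' => h1 ⟨h, h'⟩
          exact ⟨(not_le.1 h').le, h.trans (not_le.1 h').le⟩
      have e : g c * h c a * h c b = g a * g b * g c := by
        simp only [hh]; rw [if_pos h3.1, if_pos h3.2]; ring
      rw [e]
      exact le_add_self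
  obtain ⟨X, hX⟩ : ∃ X : ℝ≥0∞, X = ∫⁻ a, g a * L a * L a := ⟨_, rfl⟩
  -- the function `Y`
  have hY2 : Measurable fun q : ℝ × ℝ => g q.2 * h q.2 q.1 * L q.2 :=
    ((hg.comp measurable_snd).mul (hm.comp measurable_swap)).mul (hL.comp measurable_snd)
  have hYm : Measurable fun a => ∫⁻ b, g b * h b a * L b := hY2.lintegral_prod_right'
  have hYX : ∫⁻ a, ∫⁻ b, g b * h b a * L b = X := by
    rw [lintegral_lintegral_swap (f := fun a b => g b * h b a * L b) hY2.aemeasurable, hX]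
    refine lintegral_congr fun b => ?_
    rw [lintegral_mul_const _ ((hmb b).const_mul _), lintegral_const_mul _ (hmb b), hLa]
  have i1 : ∀ a b, ∫⁻ c, (g a * h a b * h a c + g b * h b a * h b c + g c * h c a * h c b) =
      g a * h a b * L a + g b * h b a * L b + ∫⁻ c, g c * h c a * h c b := by
    intro a b
    have m1 : Measurable fun c => g a * h a b * h a c := (hmb a).const_mul _
    have m2 : Measurable fun c => g b * h b a * h b c := (hmb b).const_mul _
    have m12 : Measurable fun c => g a * h a b * h a c + g b * h b a * h b c := m1.add m2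
    rw [lintegral_add_left m12, lintegral_add_left m1, lintegral_const_mul _ (hmb a),
      lintegral_const_mul _ (hmb b), hLa, hLa]
  have i2 : ∀ a, ∫⁻ b, (g a * h a b * L a + g b * h b a * L b + ∫⁻ c, g c * h c a * h c b) =
      g a * L a * L a + (∫⁻ b, g b * h b a * L b) + ∫⁻ b, g b * h b a * L b := by
    intro a
    have m1 : Measurable fun b => g a * h a b * L a := ((hmb a).const_mul _).mul_const _
    have m2 : Measurable fun b => g b * h b a * L b := (hg.mul (hma a)).mul hL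
    have m12 : Measurable fun b => g a * h a b * L a + g b * h b a * L b := m1.add m2
    rw [lintegral_add_left m12, lintegral_add_left m1,
      lintegral_mul_const _ ((hmb a).const_mul _), lintegral_const_mul _ (hmb a), hLa]
    congr 1
    have m3 : Measurable fun q : ℝ × ℝ => g q.2 * h q.2 a * h q.2 q.1 :=
      ((hg.comp measurable_snd).mul ((hma a).comp measurable_snd)).mul (hm.comp measurable_swap)
    rw [lintegral_lintegral_swap (f := fun b c => g c * h c a * h c b) m3.aemeasurable]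
    refine lintegral_congr fun c => ?_
    rw [lintegral_const_mul _ (hmb c), hLa]
  have i3 : ∫⁻ a, (g a * L a * L a + (∫⁻ b, g b * h b a * L b) + ∫⁻ b, g b * h b a * L b) =
      3 * X := by
    have m1 : Measurable fun a => g a * L a * L a := (hg.mul hL).mul hL
    have m12 : Measurable fun a => g a * L a * L a + ∫⁻ b, g b * h b a * L b := m1.add hYm
    rw [lintegral_add_left m12, lintegral_add_left m1, hYX, ← hX]
    ring
  have e1 : ∀ a, (∫⁻ b, if g b ≤ g a then g b else 0) = L a := fun a => by rw [hLd, hh]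
  calc (∫⁻ s, g s) ^ 3 = ∫⁻ a, ∫⁻ b, ∫⁻ c, g a * g b * g c := e0
    _ ≤ ∫⁻ a, ∫⁻ b, ∫⁻ c, (g a * h a b * h a c + g b * h b a * h b c + g c * h c a * h c b) :=
        lintegral_mono fun a => lintegral_mono fun b => lintegral_mono fun c => key a b c
    _ = 3 * X := by simp only [i1, i2, i3]
    _ = _ := by
        rw [hX]
        congr 1
        refine lintegral_congr fun a => ?_
        rw [e1]; ring

/-- polar coordinates, on one half line, in a rotated frame with the centre `z` -/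
theorem polar (G : ℝ × ℝ → ℝ≥0∞) (hG : Measurable G) (z : ℝ × ℝ) (φ : ℝ) :
    ∫⁻ θ in Ioo (-Real.pi) Real.pi, ∫⁻ r in Ioi (0 : ℝ), ENNReal.ofReal r *
      G (z + rot φ (r * Real.cos θ, r * Real.sin θ)) = ∫⁻ y, G y := by
  have h1 : ∫⁻ y : ℝ × ℝ, G (z + rot φ y) = ∫⁻ y, G y := by
    rw [(rot_mp φ).lintegral_comp (f := fun y => G (z + y)) (hG.comp (measurable_const_add z))]
    exact lintegral_add_left_eq_self G z
  rw [← h1, ← lintegral_comp_polarCoord_symm]
  have hm : Measurable fun p : ℝ × ℝ => ENNReal.ofReal p.1 *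
      G (z + rot φ (p.1 * Real.cos p.2, p.1 * Real.sin p.2)) := by
    refine (ENNReal.measurable_ofReal.comp measurable_fst).mul ?_
    refine hG.comp ((measurable_const_add z).comp ((rot_mp φ).measurable.comp ?_))
    fun_prop
  have h2 : ∀ p : ℝ × ℝ, ENNReal.ofReal p.1 • G (z + rot φ (polarCoord.symm p)) =
      ENNReal.ofReal p.1 * G (z + rot φ (p.1 * Real.cos p.2, p.1 * Real.sin p.2)) := by
    intro p
    rw [polarCoord_symm_apply, smul_eq_mul]
  simp only [h2]
  rw [polarCoord_target, Measure.volume_eq_prod, ← Measure.prod_restrict,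
    lintegral_prod_symm' _ hm]

/-- `g 1[g ≤ g z]` -/
noncomputable def cut (f : ℝ × ℝ → ℝ≥0∞) (z y : ℝ × ℝ) : ℝ≥0∞ := if f y ≤ f z then f y else 0

theorem cut_meas (f : ℝ × ℝ → ℝ≥0∞) (hf : Measurable f) :
    Measurable fun q : (ℝ × ℝ) × (ℝ × ℝ) => cut f q.1 q.2 := by
  unfold cut
  exact Measurable.ite (measurableSet_le (hf.comp measurable_snd) (hf.comp measurable_fst))
    (hf.comp measurable_snd) measurable_const

theorem cut_le (f : ℝ × ℝ → ℝ≥0∞) (z y : ℝ × ℝ) : cut f z y ≤ f z := by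
  unfold cut
  split_ifs with h
  · exact h
  · exact bot_le

theorem cut_le' (f : ℝ × ℝ → ℝ≥0∞) (z y : ℝ × ℝ) : cut f z y ≤ f y := by
  unfold cut
  split_ifs with h
  · exact le_rfl
  · exact bot_le

/-- the weighted integral on a line through `z` -/
noncomputable def wt (f : ℝ × ℝ → ℝ≥0∞) (θ : ℝ) (z : ℝ × ℝ) : ℝ≥0∞ :=
  ∫⁻ σ : ℝ, ENNReal.ofReal |σ| * cut f z (z.1 - σ * Real.sin θ, z.2 + σ * Real.cos θ)

theorem wt_meas3 (f : ℝ × ℝ → ℝ≥0∞) (hf : Measurable f) :
    Measurable fun q : (ℝ × (ℝ × ℝ)) × ℝ => ENNReal.ofReal |q.2| *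
      cut f q.1.2 (q.1.2.1 - q.2 * Real.sin q.1.1, q.1.2.2 + q.2 * Real.cos q.1.1) := by
  have h1 : Measurable fun q : (ℝ × (ℝ × ℝ)) × ℝ =>
      (q.1.2, ((q.1.2.1 - q.2 * Real.sin q.1.1, q.1.2.2 + q.2 * Real.cos q.1.1) : ℝ × ℝ)) := by
    fun_prop
  have h2 := (cut_meas f hf).comp h1
  have h3 : Measurable fun q : (ℝ × (ℝ × ℝ)) × ℝ => ENNReal.ofReal |q.2| := by fun_prop
  exact h3.mul h2

theorem wt_meas (f : ℝ × ℝ → ℝ≥0∞) (hf : Measurable f) :
    Measurable fun q : ℝ × (ℝ × ℝ) => wt f q.1 q.2 := (wt_meas3 f hf).lintegral_prod_right'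

theorem wt_int (f : ℝ × ℝ → ℝ≥0∞) (hf : Measurable f) (z : ℝ × ℝ) :
    ∫⁻ θ in Ioo (-Real.pi) Real.pi, wt f θ z ≤ 2 * ∫⁻ y, f y := by
  have hG : Measurable (cut f z) := (cut_meas f hf).comp measurable_prodMk_left
  have hGi : ∫⁻ y, cut f z y ≤ ∫⁻ y, f y := lintegral_mono fun y => cut_le' f z y
  have e1 : ∀ θ : ℝ, wt f θ z =
      (∫⁻ r in Ioi (0 : ℝ), ENNReal.ofReal r *
        cut f z (z + rot (Real.pi / 2) (r * Real.cos θ, r * Real.sin θ))) +
      ∫⁻ r in Ioi (0 : ℝ), ENNReal.ofReal r *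
        cut f z (z + rot (-(Real.pi / 2)) (r * Real.cos θ, r * Real.sin θ)) := by
    intro θ
    unfold wt
    obtain ⟨u, hu⟩ : ∃ u : ℝ → ℝ≥0∞, u = fun σ => ENNReal.ofReal |σ| *
      cut f z (z.1 - σ * Real.sin θ, z.2 + σ * Real.cos θ) := ⟨_, rfl⟩
    have h1 : ∫⁻ σ, u σ = (∫⁻ σ in Ioi (0 : ℝ), u σ) + ∫⁻ σ in Iic (0 : ℝ), u σ := by
      rw [← lintegral_add_compl u (measurableSet_Ioi (a := (0 : ℝ))), compl_Ioi]
    have h2 : ∫⁻ σ in Iic (0 : ℝ), u σ = ∫⁻ σ in Ioi (0 : ℝ), u (-σ) := by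
      rw [setLIntegral_congr Iio_ae_eq_Iic.symm]
      have h3 := (Measure.measurePreserving_neg (volume : Measure ℝ)).setLIntegral_comp_preimage_emb
        (MeasurableEquiv.neg ℝ).measurableEmbedding u (Iio 0)
      rw [← h3]
      simp
    have h4 : (∫⁻ σ : ℝ, ENNReal.ofReal |σ| *
      cut f z (z.1 - σ * Real.sin θ, z.2 + σ * Real.cos θ)) = ∫⁻ σ, u σ := by rw [hu]
    rw [h4, h1, h2]
    congr 1
    · refine setLIntegral_congr_fun measurableSet_Ioi fun r hr => ?_
      have hr' : (0 : ℝ) < r := hr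
      simp only [hu]
      rw [abs_of_pos hr', rot_apply]
      congr 2
      ext
      · simp; ring
      · simp
    · refine setLIntegral_congr_fun measurableSet_Ioi fun r hr => ?_
      have hr' : (0 : ℝ) < r := hr
      simp only [hu]
      rw [abs_neg, abs_of_pos hr', rot_apply]
      congr 2
      ext
      · simp
      · simp
  have e2 : ∫⁻ θ in Ioo (-Real.pi) Real.pi, wt f θ z =
      (∫⁻ y, cut f z y) + ∫⁻ y, cut f z y := by
    simp only [e1]
    rw [lintegral_add_left, polar _ hG, polar _ hG]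
    have hm : Measurable fun p : ℝ × ℝ => ENNReal.ofReal p.2 *
        cut f z (z + rot (Real.pi / 2) (p.2 * Real.cos p.1, p.2 * Real.sin p.1)) := by
      refine (ENNReal.measurable_ofReal.comp measurable_snd).mul ?_
      refine hG.comp ((measurable_const_add z).comp ((rot_mp (Real.pi / 2)).measurable.comp ?_))
      fun_prop
    exact hm.lintegral_prod_right'
  rw [e2, two_mul]
  exact add_le_add hGi hGi

theorem line_le (hB : N_BATH) (f : ℝ × ℝ → ℝ≥0∞) (hf : Measurable f) (hfin : ∫⁻ z, f z ≠ ⊤)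
    (θ : ℝ) : ∫⁻ t : ℝ, (∫⁻ s : ℝ, f (rot θ (t, s))) ^ 3 ≤
      12 * ∫⁻ z, f z ^ 2 * wt f θ z := by
  have hae : ∀ᵐ z : ℝ × ℝ, f z < ⊤ := ae_lt_top hf hfin
  have hfr : Measurable fun z : ℝ × ℝ => f (rot θ z) := hf.comp (rot_mp θ).measurable
  obtain ⟨Φ, hΦ⟩ : ∃ Φ : ℝ × ℝ → ℝ≥0∞, Φ = fun z => f z *
    (∫⁻ σ : ℝ, cut f z (z.1 - σ * Real.sin θ, z.2 + σ * Real.cos θ)) ^ 2 := ⟨_, rfl⟩
  have hc : Measurable fun q : (ℝ × ℝ) × ℝ =>
      cut f q.1 (q.1.1 - q.2 * Real.sin θ, q.1.2 + q.2 * Real.cos θ) := by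
    have h1 : Measurable fun q : (ℝ × ℝ) × ℝ =>
        (q.1, ((q.1.1 - q.2 * Real.sin θ, q.1.2 + q.2 * Real.cos θ) : ℝ × ℝ)) := by
      fun_prop
    exact (cut_meas f hf).comp h1
  have hΦm : Measurable Φ := by
    rw [hΦ]
    exact hf.mul (hc.lintegral_prod_right'.pow_const 2)
  have h1 : ∀ t : ℝ, (∫⁻ s : ℝ, f (rot θ (t, s))) ^ 3 ≤ 3 * ∫⁻ s : ℝ, Φ (rot θ (t, s)) := by
    intro t
    refine (cube_le (fun s => f (rot θ (t, s))) (hfr.comp measurable_prodMk_left)).trans
      (le_of_eq ?_)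
    congr 1
    refine lintegral_congr fun s => ?_
    simp only [hΦ]
    congr 2
    have h2 := lintegral_add_left_eq_self (μ := (volume : Measure ℝ))
      (fun s' => cut f (rot θ (t, s)) (rot θ (t, s'))) s
    have h3 : (∫⁻ b : ℝ, if f (rot θ (t, b)) ≤ f (rot θ (t, s)) then f (rot θ (t, b)) else 0) =
        ∫⁻ s' : ℝ, cut f (rot θ (t, s)) (rot θ (t, s')) := rfl
    rw [h3, ← h2]
    refine lintegral_congr fun σ => ?_
    congr 1
    rw [rot_apply, rot_apply]
    ext
    · simp only; ring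
    · simp only; ring
  calc ∫⁻ t : ℝ, (∫⁻ s : ℝ, f (rot θ (t, s))) ^ 3
      ≤ ∫⁻ t : ℝ, 3 * ∫⁻ s : ℝ, Φ (rot θ (t, s)) := lintegral_mono h1
    _ = 3 * ∫⁻ t : ℝ, ∫⁻ s : ℝ, Φ (rot θ (t, s)) :=
        lintegral_const_mul _ (hΦm.comp (rot_mp θ).measurable).lintegral_prod_right'
    _ = 3 * ∫⁻ z, Φ z := by
        have hr : Measurable fun z : ℝ × ℝ => Φ (rot θ z) := hΦm.comp (rot_mp θ).measurable
        rw [← (rot_mp θ).lintegral_comp hΦm, Measure.volume_eq_prod,
          lintegral_prod _ hr.aemeasurable]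
    _ ≤ 3 * ∫⁻ z, 4 * (f z ^ 2 * wt f θ z) := by
        gcongr 3 * ?_
        refine lintegral_mono_ae (hae.mono fun z hz => ?_)
        have h5 := hB (fun σ => cut f z (z.1 - σ * Real.sin θ, z.2 + σ * Real.cos θ)) (f z)
          (hc.comp measurable_prodMk_left) hz.ne (fun σ => cut_le f z _)
        simp only [hΦ]
        calc f z * (∫⁻ σ : ℝ, cut f z (z.1 - σ * Real.sin θ, z.2 + σ * Real.cos θ)) ^ 2
            ≤ f z * (4 * f z * wt f θ z) := by gcongr; exact h5
          _ = _ := by ring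
    _ = 12 * ∫⁻ z, f z ^ 2 * wt f θ z := by
        have hw : Measurable fun z => wt f θ z := (wt_meas f hf).comp measurable_prodMk_left
        have hw2 : Measurable fun z => f z ^ 2 * wt f θ z := (hf.pow_const 2).mul hw
        rw [lintegral_const_mul _ hw2, ← mul_assoc]
        norm_num

/-- **N_DIR** -/
theorem t_N_DIR (hB : N_BATH) : N_DIR := by
  intro F hF
  obtain ⟨f, hfd⟩ : ∃ f : ℝ × ℝ → ℝ≥0∞, f = fun z => F z.1 z.2 := ⟨_, rfl⟩
  have hf : Measurable f := by rw [hfd]; exact hF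
  have eM : ∫⁻ z : ℝ × ℝ, F z.1 z.2 = ∫⁻ z, f z := by rw [hfd]
  have eQ : ∫⁻ z : ℝ × ℝ, F z.1 z.2 ^ 2 = ∫⁻ z, f z ^ 2 := by rw [hfd]
  have eI : ∀ θ t, ray F θ t = ∫⁻ s : ℝ, f (rot θ (t, s)) := by
    intro θ t
    unfold ray
    refine lintegral_congr fun s => ?_
    rw [rot_apply, hfd]
  simp only [eI, eM, eQ]
  by_cases hM : ∫⁻ z, f z = ⊤
  · refine ⟨0, ?_⟩
    have hQ0 : ∫⁻ z, f z ^ 2 ≠ 0 := by
      intro h
      have h1 := (lintegral_eq_zero_iff (hf.pow_const 2)).1 h
      have h2 : ∫⁻ z, f z = 0 := by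
        refine (lintegral_eq_zero_iff hf).2 (h1.mono fun z hz => ?_)
        simpa using hz
      rw [hM] at h2
      exact ENNReal.top_ne_zero h2
    have h3 : ENNReal.ofReal (12 / Real.pi) ≠ 0 := by
      rw [Ne, ENNReal.ofReal_eq_zero, not_le]
      exact div_pos (by norm_num) Real.pi_pos
    rw [hM, ENNReal.mul_top h3, ENNReal.top_mul hQ0]
    exact le_top
  · have hw := wt_meas f hf
    have hIm : Measurable fun θ : ℝ => ∫⁻ t : ℝ, (∫⁻ s : ℝ, f (rot θ (t, s))) ^ 3 := by
      have h1 : Measurable fun q : (ℝ × ℝ) × ℝ => f (rot q.1.1 (q.1.2, q.2)) := by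
        have h2 : (fun q : (ℝ × ℝ) × ℝ => f (rot q.1.1 (q.1.2, q.2))) = fun q : (ℝ × ℝ) × ℝ =>
            f (q.1.2 * Real.cos q.1.1 - q.2 * Real.sin q.1.1,
              q.1.2 * Real.sin q.1.1 + q.2 * Real.cos q.1.1) := by
          funext q
          rw [rot_apply]
        rw [h2]
        exact hf.comp (by fun_prop)
      have h3 : Measurable fun q : ℝ × ℝ => (∫⁻ s : ℝ, f (rot q.1 (q.2, s))) ^ 3 :=
        h1.lintegral_prod_right'.pow_const 3
      exact h3.lintegral_prod_right'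
    have hμ : (volume : Measure ℝ) (Ioo (-Real.pi) Real.pi) = ENNReal.ofReal (2 * Real.pi) := by
      rw [Real.volume_Ioo]; congr 1; ring
    have h2p : ENNReal.ofReal (2 * Real.pi) ≠ 0 := by
      rw [Ne, ENNReal.ofReal_eq_zero, not_le]
      exact mul_pos two_pos Real.pi_pos
    have htot : ∫⁻ θ in Ioo (-Real.pi) Real.pi, ∫⁻ t : ℝ, (∫⁻ s : ℝ, f (rot θ (t, s))) ^ 3 ≤
        24 * (∫⁻ z, f z) * ∫⁻ z, f z ^ 2 := by
      have hz : Measurable fun q : ℝ × (ℝ × ℝ) => f q.2 ^ 2 * wt f q.1 q.2 :=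
        ((hf.comp measurable_snd).pow_const 2).mul hw
      calc ∫⁻ θ in Ioo (-Real.pi) Real.pi, ∫⁻ t : ℝ, (∫⁻ s : ℝ, f (rot θ (t, s))) ^ 3
          ≤ ∫⁻ θ in Ioo (-Real.pi) Real.pi, 12 * ∫⁻ z, f z ^ 2 * wt f θ z :=
            lintegral_mono fun θ => line_le hB f hf hM θ
        _ = 12 * ∫⁻ θ in Ioo (-Real.pi) Real.pi, ∫⁻ z, f z ^ 2 * wt f θ z :=
            lintegral_const_mul _ hz.lintegral_prod_right'
        _ = 12 * ∫⁻ z, ∫⁻ θ in Ioo (-Real.pi) Real.pi, f z ^ 2 * wt f θ z := by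
            rw [lintegral_lintegral_swap (f := fun θ z => f z ^ 2 * wt f θ z) hz.aemeasurable]
        _ ≤ 12 * ∫⁻ z, f z ^ 2 * (2 * ∫⁻ y, f y) := by
            gcongr 12 * ?_
            refine lintegral_mono fun z => ?_
            have hwz : Measurable fun θ => wt f θ z := hw.comp measurable_prodMk_right
            simp only
            rw [lintegral_const_mul _ hwz]
            gcongr
            exact wt_int f hf z
        _ = _ := by
            rw [lintegral_mul_const _ (hf.pow_const 2)]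
            ring
    have hfin : IsFiniteMeasure ((volume : Measure ℝ).restrict (Ioo (-Real.pi) Real.pi)) :=
      ⟨by rw [Measure.restrict_apply_univ, hμ]; exact ENNReal.ofReal_lt_top⟩
    have hne : (volume : Measure ℝ).restrict (Ioo (-Real.pi) Real.pi) ≠ 0 := by
      intro h
      have h1 := congrArg (fun m => m univ) h
      simp only [Measure.restrict_apply_univ, hμ] at h1
      exact h2p (by simpa using h1)
    obtain ⟨θ, hθ⟩ := exists_le_laverage hne hIm.aemeasurable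
    refine ⟨θ, hθ.trans ?_⟩
    rw [laverage_eq, Measure.restrict_apply_univ, hμ]
    refine (ENNReal.div_le_div_right htot _).trans (le_of_eq ?_)
    have h5 : ENNReal.ofReal (12 / Real.pi) = 24 / ENNReal.ofReal (2 * Real.pi) := by
      rw [show (24 : ℝ≥0∞) = ENNReal.ofReal 24 by norm_num,
        ← ENNReal.ofReal_div_of_pos (mul_pos two_pos Real.pi_pos)]
      congr 1
      field_simp
      norm_num
    rw [h5, ENNReal.div_eq_inv_mul, ENNReal.div_eq_inv_mul]
    ring

end Run7.h216.MY
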